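import Pool.Agent.H673R2.OneOne.Gen

/-!
# MP_8a92de_lc, Q1: relative to a random oracle the NP-complete sets form a single 1-degree

With probability one relative to a random oracle `A`, every set which is hard for `NP` relative to
`A` under many-one reductions is hard under one-one, length-increasing reductions. (Relative to a
generic oracle this fails already for complete sets, by Kurtz.)

Idea of the proof. Let `B` be hard and `L` in `NP`. Read from the oracle two sparse random
functions `G, G' : {0,1}^{2k} → {0,1}^{4k}`. The test language contains `⟨z, r⟩` if `r` is a value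
of `G` and `z ∈ L`, or if `r` is a value of `G'`. It is in `NP`, so there is a reduction `F` to
`B`. The new reduction maps `z` to `F⟨z, G(s_z)⟩`, where the seed `s_z` is read from a block of the
oracle which is too far away to be asked about by `F`. If `F⟨z, G(s_z)⟩` takes a given value (a
short string, or the value for another `z'`) with too large a probability, then, as `F` cannot tell
apart the values of `G`, the values of `G'` and other strings, it takes this value for a member and
for a nonmember of the test language.
-/

namespace Pool.Agent.Results.MP_8a92de_lc.RandomOracleNP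

open MeasureTheory Pool.Agent.NPC Pool.Agent.H628R3.RO

/-- `B` is complete for `NP` relative to `A` under polynomial-time many-one reductions. -/
def NPCompleteRel (A : Oracle) (B : Set (List Bool)) : Prop := IsNP A B ∧ NPHardRel A B

/-- Reducibility by one-one functions which are polynomial-time computable relative to `A`. -/
def OneRed (A : Oracle) (L L' : Set (List Bool)) : Prop :=
  ∃ F : List Bool → List Bool, IsFP A F ∧ Function.Injective F ∧ ∀ x, x ∈ L ↔ F x ∈ L'

/-- With probability one relative to a random oracle `A`: any two `NP`-complete sets are
1-equivalent; moreover every set in `NP` reduces to every `NP`-hard set by a one-one,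
length-increasing function which is polynomial-time computable relative to `A`. -/
theorem result : ∀ᵐ A ∂randomOracle,
    (∀ B B' : Set (List Bool), NPCompleteRel A B → NPCompleteRel A B' →
      OneRed A B B' ∧ OneRed A B' B) ∧
    ∀ B : Set (List Bool), NPHardRel A B → ∀ L : Set (List Bool), IsNP A L →
      ∃ F : List Bool → List Bool, IsFP A F ∧ Function.Injective F ∧
        (∀ x, x.length < (F x).length) ∧ ∀ x, x ∈ L ↔ F x ∈ B := by
  filter_upwards [Pool.Agent.H673R2.OneOne.ae_Good] with A hA
  have h : ∀ B : Set (List Bool), NPHardRel A B → ∀ L : Set (List Bool), IsNP A L →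
      ∃ F : List Bool → List Bool, IsFP A F ∧ Function.Injective F ∧
        (∀ x, x.length < (F x).length) ∧ ∀ x, x ∈ L ↔ F x ∈ B :=
    fun B hB L hL => Pool.Agent.H673R2.OneOne.np_case hA hB hL
  refine ⟨fun B B' hB hB' => ?_, h⟩
  obtain ⟨F, h1, h2, -, h3⟩ := h B' hB'.2 B hB.1
  obtain ⟨F', h1', h2', -, h3'⟩ := h B hB.2 B' hB'.1
  exact ⟨⟨F, h1, h2, h3⟩, F', h1', h2', h3'⟩

end Pool.Agent.Results.MP_8a92de_lc.RandomOracleNP
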