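import Pool.Agent.H673R2.OneOne.Psp

/-!
# MP_8a92de_lc, Q2: relative to a random oracle the PSPACE-complete sets form a single 1-degree

With probability one relative to a random oracle `A`, every set which is hard for polynomial space
relative to `A` under many-one reductions is hard under one-one, length-increasing reductions.
Polynomial space relative to `A` is defined as alternating polynomial time relative to `A`.
-/

namespace Pool.Agent.Results.MP_8a92de_lc.RandomOraclePSPACE

open MeasureTheory Pool.Agent.NPC Pool.Agent.H628R3.RO

/-- A game of `n` further rounds. In every round the first player chooses a bit, which is appended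
to `e`, and then the second player chooses a bit, which is appended to `f`. The first player wins
if `P` holds in the end. `Win P n e f` means that the first player has a winning strategy. -/
def Win (P : List Bool → List Bool → Prop) : ℕ → List Bool → List Bool → Prop
  | 0, e, f => P e f
  | n + 1, e, f => ∃ b : Bool, ∀ c : Bool, Win P n (e ++ [b]) (f ++ [c])

/-- Polynomial space relative to `A`, in the form of alternating polynomial time: the language of
all `x` such that the first player has a winning strategy in a game with polynomially many rounds,
where the outcome is decided in polynomial time relative to `A`. -/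
def IsPSPACE (A : Oracle) (L : Set (List Bool)) : Prop :=
  ∃ (V : List Bool → List Bool) (p : Polynomial ℕ), IsFP A V ∧ ∀ x, x ∈ L ↔
    Win (fun e f => V (pairBits x (pairBits e f)) = [true]) (p.eval x.length) [] []

/-- Hardness for polynomial space relative to `A`, under many-one reductions. -/
def PSPACEHardRel (A : Oracle) (B : Set (List Bool)) : Prop := ∀ L, IsPSPACE A L → Red A L B

/-- `B` is complete for polynomial space relative to `A` under polynomial-time many-one
reductions. -/
def PSPACECompleteRel (A : Oracle) (B : Set (List Bool)) : Prop :=
  IsPSPACE A B ∧ PSPACEHardRel A B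

/-- Reducibility by one-one functions which are polynomial-time computable relative to `A`. -/
def OneRed (A : Oracle) (L L' : Set (List Bool)) : Prop :=
  ∃ F : List Bool → List Bool, IsFP A F ∧ Function.Injective F ∧ ∀ x, x ∈ L ↔ F x ∈ L'

theorem win_iff (P : List Bool → List Bool → Prop) : ∀ (n : ℕ) (e f : List Bool),
    Win P n e f ↔ Pool.Agent.H673R2.OneOne.Win P n e f := by
  intro n
  induction n with
  | zero => intro e f; rfl
  | succ n ih =>
    intro e f
    exact exists_congr fun b => forall_congr' fun c => ih _ _

theorem isPSPACE_iff (A : Oracle) (L : Set (List Bool)) :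
    IsPSPACE A L ↔ Pool.Agent.H673R2.OneOne.IsPSPACE A L := by
  unfold IsPSPACE Pool.Agent.H673R2.OneOne.IsPSPACE
  simp only [win_iff]

/-- With probability one relative to a random oracle `A`: any two `PSPACE`-complete sets are
1-equivalent; moreover every set in `PSPACE` reduces to every `PSPACE`-hard set by a one-one,
length-increasing function which is polynomial-time computable relative to `A`. -/
theorem result : ∀ᵐ A ∂randomOracle,
    (∀ B B' : Set (List Bool), PSPACECompleteRel A B → PSPACECompleteRel A B' →
      OneRed A B B' ∧ OneRed A B' B) ∧
    ∀ B : Set (List Bool), PSPACEHardRel A B → ∀ L : Set (List Bool), IsPSPACE A L →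
      ∃ F : List Bool → List Bool, IsFP A F ∧ Function.Injective F ∧
        (∀ x, x.length < (F x).length) ∧ ∀ x, x ∈ L ↔ F x ∈ B := by
  filter_upwards [Pool.Agent.H673R2.OneOne.ae_Good] with A hA
  have h : ∀ B : Set (List Bool), PSPACEHardRel A B → ∀ L : Set (List Bool), IsPSPACE A L →
      ∃ F : List Bool → List Bool, IsFP A F ∧ Function.Injective F ∧
        (∀ x, x.length < (F x).length) ∧ ∀ x, x ∈ L ↔ F x ∈ B :=
    fun B hB L hL => Pool.Agent.H673R2.OneOne.pspace_case hA
      (fun L' hL' => hB L' ((isPSPACE_iff A L').2 hL')) ((isPSPACE_iff A L).1 hL)
  refine ⟨fun B B' hB hB' => ?_, h⟩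
  obtain ⟨F, h1, h2, -, h3⟩ := h B' hB'.2 B hB.1
  obtain ⟨F', h1', h2', -, h3'⟩ := h B hB.2 B' hB'.1
  exact ⟨⟨F, h1, h2, h3⟩, F', h1', h2', h3'⟩

end Pool.Agent.Results.MP_8a92de_lc.RandomOraclePSPACE
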